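import Pool.Agent.H560R3.TG.Main

/-!
# Tait's crossing number conjecture in `#_g (S¹ × S²)`

The definitions are in `Pool.Agent.H560R3.TG.Defs`; here is a summary.

* A diagram in the disk with holes `S_g` is a word in the elementary pieces `birth i` (a maximum),
  `death i` (a minimum), `cr i b` (a crossing) and `hole i` (a hole of `S_g`), read from top to
  bottom; `i` is the number of strands on the left. `WF 0 D 0`: the pieces fit together and there
  are no strands at the top and at the bottom. The number of holes `g` is arbitrary.
* `Iso D D'`: the diagrams are related by planar isotopies of `S_g` (`zig1`, `zig2`, `sb`, `sd`,
  `far`; the holes are fixed), Reidemeister moves (`r1`, `r1'`, `r2`, `r3`) and slides over the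
  `2`-handles of `M_g = (S_g × [-1, 1]) ∪ (2-handles) ∪ ball` (`slide`), i.e. they represent
  isotopic links in `M_g = #_g (S¹ × S²)`.
* `Connected`, `Alternating`, `Simple` (conditions (i), (ii), (iii) of the problem) are properties
  of the diagram; `Z2Trivial D` says that the link is trivial in `H₁(M_g; Z/2)` (the spheres dual to
  the `2`-handles meet the link in an even number of points).
* `Filling D'`: the outer boundary circle of `S_g` and the holes lie in pairwise different regions
  of `D'`. Equivalently, `D'` does not lie in a disk with fewer holes: if a region contains two
  boundary circles, cut `S_g` along an arc in this region which joins them; conversely, if `D'`
  lies in a disk with fewer holes, then two of the boundary circles lie in the same component of its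
  complement.

The regions are treated by means of labellings: a labelling of the gaps by elements of a type `G`
is the same as a function from the set of the regions to `G`; a labelling of the strands is the same
as a function on the set of the edges of the diagram.

About condition (i): if the boundary of an embedded disk in `S_g` meets the diagram in a single
crossing only (and passes through it), then it runs in one region `R` which touches this
crossing twice. By condition (iii) the region `R` is not external, and the regions which touch the
part of the diagram in the disk are `R` and regions in the disk; so none of them is external, and
`DiskAt` holds. Conversely, if `DiskAt` holds, then (`D` being connected) the part of `D` with the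
label `true` is separated from the rest by a closed curve which passes through the crossing only;
no external region touches this part, hence this curve bounds a disk without holes which contains
the part.

In the problem all diagrams `E` of the link are supposed to be connected and not to lie in a disk
with fewer holes. The theorem needs this for the diagram `D'` only.

Idea of the proof: the Kauffman bracket of a diagram is written as a sum over the labellings of the
regions of the smoothed diagrams by heights (natural numbers; neighbouring regions have
neighbouring heights, the external regions have the height `0`), where the weights are products of
quantum integers; a hole forces the height `0`. The product of the values at `t` and `1 / t` is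
invariant under all moves (also under the slides, as the height at the hole is `0`). Its degree in
`t` is at most `2 n + 2 (n + 4 - 2 (g + 1))` for a connected filling diagram with `n` crossings and
at least this number for the diagram `D`.
-/

set_option autoImplicit false

namespace Pool.Agent.Results.MP_150b40_gt.TaitSumS1S2

open Pool.Agent.H560R3.TG

/-- Let `D`, `D'` be diagrams in `S_g` of the same link in `#_g (S¹ × S²)`. If `D` is connected,
alternating and simple, the link is trivial in the homology with coefficients `Z/2`, and `D'` is
connected and does not lie in a disk with fewer holes, then `D'` has at least as many crossings as
`D`. -/
theorem result (D D' : List Piece) (hD : WF 0 D 0) (hD' : WF 0 D' 0)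
    (hconn : Connected D) (halt : Alternating D) (hsimple : Simple D) (hz : Z2Trivial D)
    (hiso : Iso D D') (hconn' : Connected D') (hfill' : Filling D') :
    crossings D ≤ crossings D' :=
  tait hD hD' hconn halt hsimple hz hiso hconn' hfill'

end Pool.Agent.Results.MP_150b40_gt.TaitSumS1S2
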